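import Pool.Agent.H.MP_53e59f_lc.SR.Gen
import Pool.Agent.H.MP_53e59f_lc.SG.Fin

/-!
# The certified form of FewBlocks
-/

namespace Pool.Agent.SR

open Pool.Agent.SF Pool.Agent.SG

theorem finalFB (c : ℕ) :
    ∃ f g : Inst → Bool,
      Nonempty (Turing.TM2ComputableInPolyTime Inst.encode Computability.encodeBool f) ∧
      Nonempty (Turing.TM2ComputableInPolyTime Inst.encode Computability.encodeBool g) ∧
      (∀ x : Inst, g x = true → (f x = true ↔ x.M.accepts ≠ {w | Sh x.u x.v w})) ∧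
      ∀ x : Inst, Few (c * Nat.log 2 x.encode.length) x.u x.v → g x = true := by
  obtain ⟨f, g, h1, h2, h3, h4⟩ := gen (SG.poly_cap c)
  refine ⟨f, g, h1, h2, h3, ?_⟩
  intro x h
  refine h4 x (SG.bnd x.s (x.u.length + x.v.length + x.m + 1) (x.u.length + x.v.length)
    (c * Nat.log 2 x.encode.length)) ?_ (SG.cap_ge x le_rfl)
  intro k hk
  have h5 := SG.count_Rs x.s (Few_map Fin.val_injective h) k
  rw [List.length_map, List.length_map] at h5
  exact ⟨h5.1, h5.2.trans (SG.bnd_mono hk)⟩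

end Pool.Agent.SR
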