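import Pool.Agent.H.MP_53e59f_lc.SP.Fin

/-!
# The certified algorithm for an arbitrary bound
-/

namespace Pool.Agent.SR

open Pool.Agent.SF Pool.Agent.SP
open Pool.Agent.H.MP_5be563_lc.PT

variable {s : ℕ} {tab : List (List ℕ)} {st : ℕ} {acc : List Bool} {u v : List ℕ} {m B C : ℕ}

/-- The sets of tokens of the words of length `k` over `s` letters. -/
def Lv (s : ℕ) (u v : List ℕ) (k : ℕ) : Set (Set ℕ) :=
  {S : Set ℕ | ∃ w : List ℕ, w.length = k ∧ (∀ a ∈ w, a < s) ∧ S = Rs u v w}

theorem good_len {k : ℕ} (hf : (Lv s u v k).Finite) (hc : (Lv s u v k).ncard ≤ B)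
    (hm : ∀ w : List ℕ, (∀ a ∈ w, a < s) → ev tab st w < m)
    {L : List (ℕ × List Bool)} (h : Good s tab st u v k L) :
    L.length ≤ m * B := by
  classical
  let F : Finset (Set ℕ) := hf.toFinset
  let g : Set ℕ → List Bool := fun S => (List.range (u.length + 1)).map fun p => decide (p ∈ S)
  have hg : ∀ w, RB u v w = g (Rs u v w) := fun w => by
    unfold RB
    rfl
  have hsub : L.toFinset ⊆ Finset.range m ×ˢ F.image g := by
    intro e he
    obtain ⟨w, hw, hws, rfl⟩ := (h.mem e).1 (List.mem_toFinset.1 he)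
    refine Finset.mem_product.2 ⟨Finset.mem_range.2 (hm w hws), Finset.mem_image.2 ⟨Rs u v w, ?_, ?_⟩⟩
    · exact hf.mem_toFinset.2 ⟨w, hw, hws, rfl⟩
    · exact (hg w).symm
  calc L.length = L.toFinset.card := (List.toFinset_card_of_nodup h.nd).symm
    _ ≤ (Finset.range m ×ˢ F.image g).card := Finset.card_le_card hsub
    _ = m * (F.image g).card := by rw [Finset.card_product, Finset.card_range]
    _ ≤ m * F.card := Nat.mul_le_mul_left m Finset.card_image_le
    _ ≤ m * B := by
      refine Nat.mul_le_mul_left m ?_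
      rw [← Set.ncard_eq_toFinset_card _ hf]
      exact hc

/-- If there are few sets of tokens then the run is certified. -/
theorem small_of (hr : ∀ k, k ≤ u.length + v.length + tab.length + 1 →
      (Lv s u v k).Finite ∧ (Lv s u v k).ncard ≤ B)
    (hm : ∀ w : List ℕ, (∀ a ∈ w, a < s) → ev tab st w < m) (hC : m * B ≤ C) :
    small s tab st acc u v C = true := by
  have key : ∀ j, j < u.length + v.length + tab.length + 2 →
      (it s tab st acc u v (C + 1) j).1 = j ∧
      Good s tab st u v j (it s tab st acc u v (C + 1) j).2.1 := by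
    intro j
    induction j with
    | zero => exact fun _ => ⟨rfl, good_zero⟩
    | succ j ih =>
      intro hj
      obtain ⟨h1, h2⟩ := ih (by omega)
      have h5 := Good_dd h2
      obtain ⟨h6, h7⟩ := hr (j + 1) (by omega)
      have h8 := (SR.good_len h6 h7 hm h5).trans hC
      have h4 : (one s tab acc u v (C + 1) (it s tab st acc u v (C + 1) j)).2.1 =
          nxt s tab u v (C + 1) j (it s tab st acc u v (C + 1) j).2.1 := by
        show nxt s tab u v (C + 1) (it s tab st acc u v (C + 1) j).1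
          (it s tab st acc u v (C + 1) j).2.1 = _
        rw [h1]
      rw [it_succ]
      refine ⟨?_, ?_⟩
      · show (it s tab st acc u v (C + 1) j).1 + 1 = j + 1
        rw [h1]
      · rw [h4]
        have h3 : nxt s tab u v (C + 1) j (it s tab st acc u v (C + 1) j).2.1 =
            dd ((it s tab st acc u v (C + 1) j).2.1.flatMap fun e =>
              (List.range s).map fun a => (look tab e.1 a, stp u v j e.2 a)) :=
          List.take_of_length_le (h8.trans (Nat.le_succ C))
        rw [h3]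
        exact h5
  unfold small
  rw [List.all_eq_true]
  intro j hj
  have hj' := List.mem_range.1 hj
  obtain ⟨h6, h7⟩ := hr j (by omega)
  exact decide_eq_true ((SR.good_len h6 h7 hm (key j hj').2).trans hC)

theorem gen {cap : Dat → ℕ} (hcap : Poly cap) :
    ∃ f g : Inst → Bool,
      Nonempty (Turing.TM2ComputableInPolyTime Inst.encode Computability.encodeBool f) ∧
      Nonempty (Turing.TM2ComputableInPolyTime Inst.encode Computability.encodeBool g) ∧
      (∀ x : Inst, g x = true → (f x = true ↔ x.M.accepts ≠ {w | Sh x.u x.v w})) ∧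
      ∀ (x : Inst) (B : ℕ), (∀ k, k ≤ x.u.length + x.v.length + x.m + 1 →
          (Lv x.s (x.u.map Fin.val) (x.v.map Fin.val) k).Finite ∧
          (Lv x.s (x.u.map Fin.val) (x.v.map Fin.val) k).ncard ≤ B) →
        x.m * B ≤ cap x.dat → g x = true := by
  have h1 : Poly (fun d : Dat => d.1) := by fun_prop
  have h2 : Poly (fun d : Dat => d.2.1) := by fun_prop
  have h3 : Poly (fun d : Dat => d.2.2.1) := by fun_prop
  have h4 : Poly (fun d : Dat => d.2.2.2.1) := by fun_prop
  have h5 : Poly (fun d : Dat => d.2.2.2.2.1) := by fun_prop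
  have h6 : Poly (fun d : Dat => d.2.2.2.2.2) := by fun_prop
  have hd : Poly (fun d : Dat =>
      alg d.1 d.2.1 d.2.2.1 d.2.2.2.1 d.2.2.2.2.1 d.2.2.2.2.2 (cap d + 1)) :=
    poly_alg h1 h2 h3 h4 h5 h6 (Poly.add hcap (by fun_prop))
  have hc : Poly (fun d : Dat =>
      small d.1 d.2.1 d.2.2.1 d.2.2.2.1 d.2.2.2.2.1 d.2.2.2.2.2 (cap d)) :=
    poly_small h1 h2 h3 h4 h5 h6 hcap
  have hP : Poly (fun d : Dat =>
      (alg d.1 d.2.1 d.2.2.1 d.2.2.2.1 d.2.2.2.2.1 d.2.2.2.2.2 (cap d + 1)).1 ||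
      (alg d.1 d.2.1 d.2.2.1 d.2.2.2.1 d.2.2.2.2.1 d.2.2.2.2.2 (cap d + 1)).2) := by
    fun_prop
  obtain ⟨M⟩ := hP.tm2_bool
  obtain ⟨M'⟩ := hc.tm2_bool
  refine ⟨fun x => (alg x.dat.1 x.dat.2.1 x.dat.2.2.1 x.dat.2.2.2.1 x.dat.2.2.2.2.1
      x.dat.2.2.2.2.2 (cap x.dat + 1)).1 || (alg x.dat.1 x.dat.2.1 x.dat.2.2.1 x.dat.2.2.2.1
      x.dat.2.2.2.2.1 x.dat.2.2.2.2.2 (cap x.dat + 1)).2,
    fun x => small x.dat.1 x.dat.2.1 x.dat.2.2.1 x.dat.2.2.2.1 x.dat.2.2.2.2.1 x.dat.2.2.2.2.2
      (cap x.dat), ⟨?_⟩, ⟨?_⟩, ?_, ?_⟩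
  · exact
      { tm := M.tm
        inputAlphabet := M.inputAlphabet
        outputAlphabet := M.outputAlphabet
        time := M.time
        outputsFun := fun x => M.outputsFun x.dat }
  · exact
      { tm := M'.tm
        inputAlphabet := M'.inputAlphabet
        outputAlphabet := M'.outputAlphabet
        time := M'.time
        outputsFun := fun x => M'.outputsFun x.dat }
  · intro x hx
    obtain ⟨h1, h2⟩ := SP.alg_dat x x.u x.v hx
    have h3 : ((alg x.dat.1 x.dat.2.1 x.dat.2.2.1 x.dat.2.2.2.1 x.dat.2.2.2.2.1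
      x.dat.2.2.2.2.2 (cap x.dat + 1)).1 || (alg x.dat.1 x.dat.2.1 x.dat.2.2.1 x.dat.2.2.2.1
      x.dat.2.2.2.2.1 x.dat.2.2.2.2.2 (cap x.dat + 1)).2) = true ↔
      (∃ w, w ∈ x.M.accepts ∧ ¬ Sh x.u x.v w) ∨ (∃ w, w ∉ x.M.accepts ∧ Sh x.u x.v w) := by
      rw [Bool.or_eq_true]
      exact or_congr h1 h2
    refine h3.trans ?_
    constructor
    · rintro (⟨w, hw1, hw2⟩ | ⟨w, hw1, hw2⟩) he
      · exact hw2 (he ▸ hw1 : w ∈ ({w | Sh x.u x.v w} : Set _))
      · exact hw1 (he ▸ (show w ∈ ({w | Sh x.u x.v w} : Set _) from hw2))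
    · intro hne
      by_contra hcon
      push Not at hcon
      apply hne
      ext w
      constructor
      · intro hw
        exact hcon.1 w hw
      · intro hw
        by_contra h3
        exact hcon.2 w h3 hw
  · intro x B hr hC
    have hm : ∀ w : List ℕ, (∀ a ∈ w, a < x.s) → ev x.dat.2.1 x.dat.2.2.1 w < x.m := by
      intro w hw
      obtain ⟨w', rfl⟩ := ex_map hw
      rw [ev_dat]
      exact (x.M.eval w').2
    refine SR.small_of (u := x.u.map Fin.val) (v := x.v.map Fin.val) ?_ hm hC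
    intro k hk
    rw [List.length_map, List.length_map, Corr_len] at hk
    exact hr k hk

end Pool.Agent.SR
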