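import Pool.Agent.H.MP_53e59f_lc.SR.Gen
import Pool.Agent.H.MP_53e59f_lc.SL.Fin

/-!
# The certified form of LocalPeriod
-/

namespace Pool.Agent.SR

open Pool.Agent.SF Pool.Agent.SH Pool.Agent.SL

theorem finalLP (c : ℕ) :
    ∃ f g : Inst → Bool,
      Nonempty (Turing.TM2ComputableInPolyTime Inst.encode Computability.encodeBool f) ∧
      Nonempty (Turing.TM2ComputableInPolyTime Inst.encode Computability.encodeBool g) ∧
      (∀ x : Inst, g x = true → (f x = true ↔ x.M.accepts ≠ {w | Sh x.u x.v w})) ∧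
      ∀ (x : Inst) (P : ℕ), 0 < P → P ≤ c * Nat.log 2 x.encode.length → PerL P x.u x.v →
        g x = true := by
  obtain ⟨f, g, h1, h2, h3, h4⟩ := gen (SH.poly_cap c)
  refine ⟨f, g, h1, h2, h3, ?_⟩
  intro x P hP hP' hl
  refine h4 x ((x.u.length + 1) ^ 2 * 2 ^ P) ?_ (SH.cap_ge x hP')
  intro k _
  have h5 := SL.count_Rs x.s hP (PerL_map Fin.val_injective hl) k
  rw [List.length_map] at h5
  exact h5

end Pool.Agent.SR
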